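import Pool.Agent.Y506.PV.Stm
import Pool.Agent.H212R2.KLS.T1

/-!
# PV: level sets and moments of concave functions under a log-concave weight
-/

set_option autoImplicit false

namespace Pool.Agent.Y625.PV

open MeasureTheory Set Filter Topology
open scoped ENNReal InnerProductSpace
open Pool.Agent.W695.KH (Eu EU EV VV Sm Pot Uu)
open Pool.Agent.Y506.RG (EW VW Star LC1 GD Adm)
open Pool.Agent.Y506.PV

theorem mass_lint {n : ℕ} {w φ : Eu (Fin n) → ℝ} (hw : Adm w) (hφ : Measurable φ) (α : ℝ) :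
    ∫ x in {x | α ≤ φ x}, w x =
      (∫⁻ x, {x | α ≤ φ x}.indicator (fun x => ENNReal.ofReal (w x)) x).toReal := by
  have hm : MeasurableSet {x | α ≤ φ x} := measurableSet_le measurable_const hφ
  rw [lintegral_indicator hm, integral_eq_lintegral_of_nonneg_ae
    (Eventually.of_forall hw.nonneg) hw.one.aestronglyMeasurable.restrict]

theorem mass_fin {n : ℕ} {w φ : Eu (Fin n) → ℝ} (hw : Adm w) (α : ℝ) :
    ∫⁻ x, {x | α ≤ φ x}.indicator (fun x => ENNReal.ofReal (w x)) x ≠ ∞ := by
  have h1 : ∫⁻ x, {x | α ≤ φ x}.indicator (fun x => ENNReal.ofReal (w x)) x ≤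
      ∫⁻ x, ENNReal.ofReal (w x) := lintegral_mono fun x => Set.indicator_le_self _ _ x
  have h2 : ∫⁻ x, ENNReal.ofReal (w x) < ∞ := hw.one.lintegral_lt_top
  exact (lt_of_le_of_lt h1 h2).ne

/-- LEV -/
theorem lev : S_LEV := by
  intro n w φ hw hlc hφ hc α β t ht0 ht1
  have t1 : 0 < 1 - t := by linarith
  have hm : ∀ a : ℝ, Measurable ({x | a ≤ φ x}.indicator (fun x => ENNReal.ofReal (w x))) :=
    fun a => (ENNReal.measurable_ofReal.comp hw.meas).indicator
      (measurableSet_le measurable_const hφ)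
  have key := Pool.Agent.H212R2.KLS.PL (volume : Measure (Eu (Fin n))) t ht0 ht1
    ({x | α ≤ φ x}.indicator (fun x => ENNReal.ofReal (w x)))
    ({x | β ≤ φ x}.indicator (fun x => ENNReal.ofReal (w x)))
    ({x | (1 - t) * α + t * β ≤ φ x}.indicator (fun x => ENNReal.ofReal (w x)))
    (hm α) (hm β) (hm _) (by
      intro x y
      by_cases hx : x ∈ {x | α ≤ φ x}
      · by_cases hy : y ∈ {x | β ≤ φ x}
        · rw [Set.indicator_of_mem hx, Set.indicator_of_mem hy]
          rcases (hw.nonneg x).eq_or_lt with h0 | hx0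
          · rw [← h0, ENNReal.ofReal_zero, ENNReal.zero_rpow_of_pos t1, zero_mul]
            exact bot_le
          rcases (hw.nonneg y).eq_or_lt with h0 | hy0
          · rw [← h0, ENNReal.ofReal_zero, ENNReal.zero_rpow_of_pos ht0, mul_zero]
            exact bot_le
          have hz : (1 - t) • x + t • y ∈ {x | (1 - t) * α + t * β ≤ φ x} := by
            have h1 := hc x y t ht0 ht1 hx0 hy0
            have h2 : (1 - t) * α ≤ (1 - t) * φ x := mul_le_mul_of_nonneg_left hx t1.le
            have h3 : t * β ≤ t * φ y := mul_le_mul_of_nonneg_left hy ht0.le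
            change (1 - t) * α + t * β ≤ φ _
            linarith
          rw [Set.indicator_of_mem hz, ENNReal.ofReal_rpow_of_pos hx0,
            ENNReal.ofReal_rpow_of_pos hy0, ← ENNReal.ofReal_mul (by positivity)]
          exact ENNReal.ofReal_le_ofReal (hlc x y t ht0 ht1)
        · rw [Set.indicator_of_notMem hy, ENNReal.zero_rpow_of_pos ht0, mul_zero]
          exact bot_le
      · rw [Set.indicator_of_notMem hx, ENNReal.zero_rpow_of_pos t1, zero_mul]
        exact bot_le)
  rw [mass_lint hw hφ α, mass_lint hw hφ β, mass_lint hw hφ, ENNReal.toReal_rpow,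
    ENNReal.toReal_rpow, ← ENNReal.toReal_mul]
  exact ENNReal.toReal_mono (mass_fin hw _) key

section um

variable {n : ℕ} {w u : Eu (Fin n) → ℝ}

/-- the proportion of the points above the level `t` -/
noncomputable def G (w u : Eu (Fin n) → ℝ) (t : ℝ) : ℝ := (∫ x in {x | t ≤ u x}, w x) / ∫ x, w x

theorem G_nonneg (hw : Adm w) (t : ℝ) : 0 ≤ G w u t :=
  div_nonneg (integral_nonneg hw.nonneg) hw.pos.le

theorem G_zero (hw : Adm w) (hu : ∀ x, 0 ≤ u x) : G w u 0 = 1 := by
  unfold G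
  have : {x | 0 ≤ u x} = univ := Set.eq_univ_of_forall hu
  rw [this, Measure.restrict_univ, div_self hw.pos.ne']

theorem G_anti (hw : Adm w) {s t : ℝ} (h : s ≤ t) : G w u t ≤ G w u s := by
  unfold G
  refine div_le_div_of_nonneg_right ?_ hw.pos.le
  exact setIntegral_mono_set hw.one.integrableOn (Eventually.of_forall hw.nonneg)
    (Eventually.of_forall fun x (hx : t ≤ u x) => h.trans hx)

theorem G_pow (hw : Adm w) (hlc : LCn w) (hum : Measurable u) (hu : ∀ x, 0 ≤ u x)
    (hc : ConcS w u) {t t' : ℝ} (ht : 0 < t) (htt : t < t') :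
    G w u t' ^ (t / t') ≤ G w u t := by
  have ht' : 0 < t' := ht.trans htt
  have hs0 : 0 < t / t' := div_pos ht ht'
  have hs1 : t / t' < 1 := (div_lt_one ht').mpr htt
  have h := lev n w u hw hlc hum hc 0 t' (t / t') hs0 hs1
  have e1 : (1 - t / t') * 0 + t / t' * t' = t := by
    rw [mul_zero, zero_add, div_mul_cancel₀ _ ht'.ne']
  rw [e1] at h
  have e2 : {x | 0 ≤ u x} = univ := Set.eq_univ_of_forall hu
  rw [e2, Measure.restrict_univ] at h
  unfold G
  rw [Real.div_rpow (integral_nonneg hw.nonneg) hw.pos.le, div_le_div_iff₀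
    (Real.rpow_pos_of_pos hw.pos _) hw.pos]
  calc (∫ x in {x | t' ≤ u x}, w x) ^ (t / t') * ∫ x, w x
      = (∫ x in {x | t' ≤ u x}, w x) ^ (t / t') * ((∫ x, w x) ^ (1 - t / t') *
          (∫ x, w x) ^ (t / t')) := by
        rw [← Real.rpow_add hw.pos, sub_add_cancel, Real.rpow_one]
    _ = ((∫ x, w x) ^ (1 - t / t') * (∫ x in {x | t' ≤ u x}, w x) ^ (t / t')) *
          (∫ x, w x) ^ (t / t') := by ring
    _ ≤ _ := mul_le_mul_of_nonneg_right h (Real.rpow_nonneg hw.pos.le _)

/-- Markov's inequality -/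
theorem G_markov (hw : Adm w) (hum : Measurable u) (hu : ∀ x, 0 ≤ u x)
    (hi : Integrable fun x => u x * w x) (t : ℝ) : t * G w u t ≤ EW w u := by
  unfold G EW
  rw [← mul_div_assoc]
  refine div_le_div_of_nonneg_right ?_ hw.pos.le
  have hm : MeasurableSet {x | t ≤ u x} := measurableSet_le measurable_const hum
  rw [← integral_const_mul]
  calc ∫ x in {x | t ≤ u x}, t * w x ≤ ∫ x in {x | t ≤ u x}, u x * w x := by
        refine setIntegral_mono_on (hw.one.const_mul t).integrableOn hi.integrableOn hm ?_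
        intro x hx
        exact mul_le_mul_of_nonneg_right hx (hw.nonneg x)
    _ ≤ ∫ x, u x * w x := setIntegral_le_integral hi
        (Eventually.of_forall fun x => mul_nonneg (hu x) (hw.nonneg x))

theorem G_exists (hw : Adm w) (hum : Measurable u) (hu : ∀ x, 0 ≤ u x)
    (hp : 0 < ∫ x, u x * w x) : ∃ t, 0 < t ∧ 0 < G w u t := by
  by_contra hcon
  push Not at hcon
  have h0 : ∀ k : ℕ, ∀ᵐ x, ((k : ℝ) + 1)⁻¹ ≤ u x → w x = 0 := by
    intro k
    have h1 := hcon (((k : ℝ) + 1)⁻¹) (by positivity)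
    have h2 : ∫ x in {x | ((k : ℝ) + 1)⁻¹ ≤ u x}, w x = 0 := by
      have h3 := le_antisymm h1 (G_nonneg hw _)
      unfold G at h3
      rcases div_eq_zero_iff.mp h3 with h4 | h4
      · exact h4
      · exact absurd h4 hw.pos.ne'
    have hm : MeasurableSet {x | ((k : ℝ) + 1)⁻¹ ≤ u x} := measurableSet_le measurable_const hum
    rw [setIntegral_eq_zero_iff_of_nonneg_ae (Eventually.of_forall hw.nonneg)
      hw.one.integrableOn] at h2
    rw [EventuallyEq, ae_restrict_iff' hm] at h2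
    filter_upwards [h2] with x hx hx2
    exact hx hx2
  have h1 : ∀ᵐ x, u x * w x = 0 := by
    rw [← ae_all_iff] at h0
    filter_upwards [h0] with x hx
    rcases (hu x).eq_or_lt with h2 | h2
    · rw [← h2, zero_mul]
    · obtain ⟨k, hk⟩ := exists_nat_one_div_lt h2
      rw [hx k (by rw [← one_div]; exact hk.le), mul_zero]
  rw [integral_congr_ae h1] at hp
  simp at hp

/-- the threshold -/
theorem exists_tau (hw : Adm w) (hlc : LCn w) (hum : Measurable u) (hu : ∀ x, 0 ≤ u x)
    (hc : ConcS w u) (hi : Integrable fun x => u x * w x) (hp : 0 < ∫ x, u x * w x) :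
    ∃ τ : ℝ, 0 < τ ∧ (∀ t, 0 < t → t < τ → Real.exp (-(t / τ)) ≤ G w u t) ∧
      ∀ t, τ < t → G w u t ≤ Real.exp (-(t / τ)) := by
  set S : Set ℝ := {t | 0 < t ∧ Real.exp (-1) ≤ G w u t} with hS
  have hne : S.Nonempty := by
    obtain ⟨t0, ht0, hG⟩ := G_exists hw hum hu hp
    by_cases h1 : Real.exp (-1) ≤ G w u t0
    · exact ⟨t0, ht0, h1⟩
    push Not at h1
    have hlog : Real.log (G w u t0) < -1 := by
      rw [Real.log_lt_iff_lt_exp hG]; exact h1
    have hl : 1 < -Real.log (G w u t0) := by linarith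
    refine ⟨t0 / -Real.log (G w u t0), by positivity, ?_⟩
    have h2 : t0 / -Real.log (G w u t0) < t0 := div_lt_self ht0 hl
    have h3 := G_pow hw hlc hum hu hc (t := t0 / -Real.log (G w u t0)) (t' := t0)
      (by positivity) h2
    refine le_trans (le_of_eq ?_) h3
    rw [Real.rpow_def_of_pos hG]
    congr 1
    have hl' : Real.log (G w u t0) ≠ 0 := by intro h; rw [h] at hl; norm_num at hl
    have hd : t0 / -Real.log (G w u t0) / t0 = (-Real.log (G w u t0))⁻¹ := by
      field_simp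
    rw [hd, inv_neg, mul_neg, mul_inv_cancel₀ hl']
  have hbd : BddAbove S := by
    refine ⟨Real.exp 1 * EW w u, ?_⟩
    rintro t ⟨ht, hG⟩
    have h1 := G_markov hw hum hu hi t
    have h2 : t * Real.exp (-1) ≤ EW w u := (mul_le_mul_of_nonneg_left hG ht.le).trans h1
    have h3 : Real.exp 1 * (t * Real.exp (-1)) ≤ Real.exp 1 * EW w u :=
      mul_le_mul_of_nonneg_left h2 (Real.exp_pos 1).le
    have h4 : Real.exp 1 * (t * Real.exp (-1)) = t := by
      rw [mul_left_comm, ← Real.exp_add]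
      norm_num
    rwa [h4] at h3
  obtain ⟨t1, ht1⟩ := hne
  have hτ : 0 < sSup S := lt_of_lt_of_le ht1.1 (le_csSup hbd ht1)
  refine ⟨sSup S, hτ, ?_, ?_⟩
  · intro t ht htτ
    by_contra hcon
    push Not at hcon
    obtain ⟨t2, ht2, h2⟩ := exists_lt_of_lt_csSup ⟨t1, ht1⟩ htτ
    have hGt : 0 < G w u t := lt_of_lt_of_le (Real.exp_pos _) (ht2.2.trans (G_anti hw h2.le))
    have h3 : Real.log (G w u t) < -(t / sSup S) := by
      rw [Real.log_lt_iff_lt_exp hGt]; exact hcon
    have h4 : t / sSup S < -Real.log (G w u t) := by linarith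
    have h5 : 0 < -Real.log (G w u t) := lt_trans (by positivity) h4
    have h6 : t / -Real.log (G w u t) < sSup S := by
      rw [div_lt_iff₀ h5]
      rw [div_lt_iff₀ hτ] at h4
      linarith
    obtain ⟨t3, ht3, h7⟩ := exists_lt_of_lt_csSup ⟨t1, ht1⟩ (max_lt htτ h6)
    have h8 : t < t3 := (le_max_left _ _).trans_lt h7
    have h9 : t / -Real.log (G w u t) < t3 := (le_max_right _ _).trans_lt h7
    have h10 := G_pow hw hlc hum hu hc ht h8
    have h11 : Real.exp (-(t / t3)) ≤ G w u t := by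
      refine le_trans ?_ h10
      have : Real.exp (-(t / t3)) = Real.exp (-1) ^ (t / t3) := by
        rw [← Real.exp_mul]; congr 1; ring
      rw [this]
      exact Real.rpow_le_rpow (Real.exp_pos _).le ht3.2 (div_pos ht ht3.1).le
    have h12 : -(t / t3) ≤ Real.log (G w u t) := by
      rw [Real.le_log_iff_exp_le hGt]; exact h11
    rw [div_lt_iff₀ h5] at h9
    have h13 : t / t3 < -Real.log (G w u t) := by
      rw [div_lt_iff₀ ht3.1]; linarith
    linarith
  · intro t htτ
    by_contra hcon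
    push Not at hcon
    have ht : 0 < t := hτ.trans htτ
    have hGt : 0 < G w u t := (Real.exp_pos _).trans hcon
    have htS : t ∉ S := fun h => absurd (le_csSup hbd h) (not_le.mpr htτ)
    have h1 : G w u t < Real.exp (-1) := by
      by_contra h
      exact htS ⟨ht, not_lt.mp h⟩
    have h2 : Real.log (G w u t) < -1 := by
      rw [Real.log_lt_iff_lt_exp hGt]; exact h1
    have h3 : -(t / sSup S) < Real.log (G w u t) := by
      rw [Real.lt_log_iff_exp_lt hGt]; exact hcon
    have h4 : 1 < -Real.log (G w u t) := by linarith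
    have h4' : 0 < -Real.log (G w u t) := by linarith
    have h5 : sSup S < t / -Real.log (G w u t) := by
      rw [lt_div_iff₀ h4']
      have : -Real.log (G w u t) < t / sSup S := by linarith
      rw [lt_div_iff₀ hτ] at this
      linarith
    have h6 : t / -Real.log (G w u t) < t := div_lt_self ht h4
    have h7 := G_pow hw hlc hum hu hc (t := t / -Real.log (G w u t)) (t' := t)
      (hτ.trans h5) h6
    have h8 : t / -Real.log (G w u t) ∈ S := by
      refine ⟨hτ.trans h5, le_trans (le_of_eq ?_) h7⟩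
      rw [Real.rpow_def_of_pos hGt]
      congr 1
      have hl' : Real.log (G w u t) ≠ 0 := by intro h; rw [h] at h4'; norm_num at h4'
      have hd : t / -Real.log (G w u t) / t = (-Real.log (G w u t))⁻¹ := by
        field_simp
      rw [hd, inv_neg, mul_neg, mul_inv_cancel₀ hl']
    exact absurd (le_csSup hbd h8) (not_le.mpr h5)

/-- the measure with density `w` -/
noncomputable def mw (w : Eu (Fin n) → ℝ) : Measure (Eu (Fin n)) :=
  (volume : Measure (Eu (Fin n))).withDensity fun x => ENNReal.ofReal (w x)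

theorem mw_level (hw : Adm w) (hum : Measurable u) (t : ℝ) :
    mw w {x | t ≤ u x} = ENNReal.ofReal ((∫ x, w x) * G w u t) := by
  have hm : MeasurableSet {x | t ≤ u x} := measurableSet_le measurable_const hum
  unfold mw G
  rw [withDensity_apply _ hm, mul_div_cancel₀ _ hw.pos.ne',
    ofReal_integral_eq_lintegral_ofReal hw.one.integrableOn
      (Eventually.of_forall fun x => hw.nonneg x)]

theorem lint_mw (hw : Adm w) {f : Eu (Fin n) → ℝ} (hf : Measurable f) (hf0 : ∀ x, 0 ≤ f x) :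
    ∫⁻ x, ENNReal.ofReal (f x) ∂(mw w) = ∫⁻ x, ENNReal.ofReal (f x * w x) := by
  unfold mw
  have m1 : Measurable fun x => ENNReal.ofReal (w x) := ENNReal.measurable_ofReal.comp hw.meas
  have m2 : Measurable fun x => ENNReal.ofReal (f x) := ENNReal.measurable_ofReal.comp hf
  rw [lintegral_withDensity_eq_lintegral_mul _ m1 m2]
  refine lintegral_congr fun x => ?_
  simp only [Pi.mul_apply]
  rw [← ENNReal.ofReal_mul (hw.nonneg x), mul_comm]

theorem lay1 (hw : Adm w) (hum : Measurable u) (hu : ∀ x, 0 ≤ u x) :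
    ∫⁻ x, ENNReal.ofReal (u x * w x) =
      ∫⁻ t in Ioi (0 : ℝ), ENNReal.ofReal ((∫ x, w x) * G w u t) := by
  rw [← lint_mw hw hum hu, lintegral_eq_lintegral_meas_le (mw w)
    (Eventually.of_forall hu) hum.aemeasurable]
  exact lintegral_congr fun t => mw_level hw hum t

theorem lay2 (hw : Adm w) (hum : Measurable u) (hu : ∀ x, 0 ≤ u x) :
    ∫⁻ x, ENNReal.ofReal (u x ^ 2 * w x) =
      ∫⁻ t in Ioi (0 : ℝ), ENNReal.ofReal ((∫ x, w x) * G w u t) * ENNReal.ofReal (2 * t) := by
  rw [← lint_mw hw (hum.pow_const 2) (fun x => by positivity)]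
  have h := lintegral_comp_eq_lintegral_meas_le_mul (mw w) (f := u) (g := fun t => 2 * t)
    (Eventually.of_forall hu) hum.aemeasurable
    (fun t _ => (continuous_const.mul continuous_id).intervalIntegrable _ _)
    (by
      rw [ae_restrict_iff' measurableSet_Ioi]
      exact Eventually.of_forall fun t (ht : 0 < t) => by positivity)
  have e : ∀ s : ℝ, ∫ t in (0 : ℝ)..s, 2 * t = s ^ 2 := by
    intro s
    rw [intervalIntegral.integral_const_mul, integral_id]
    ring
  simp only [e] at h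
  rw [h]
  exact lintegral_congr fun t => by rw [mw_level hw hum t]

theorem tail1 {τ : ℝ} (hτ : 0 < τ) :
    IntegrableOn (fun t => Real.exp (-(t / τ))) (Ioi τ) ∧
      ∫ t in Ioi τ, Real.exp (-(t / τ)) = τ * Real.exp (-1) := by
  have hd : ∀ t : ℝ, HasDerivAt (fun t => -τ * Real.exp (-(t / τ))) (Real.exp (-(t / τ))) t := by
    intro t
    have h1 : HasDerivAt (fun t : ℝ => -(t / τ)) (-(1 / τ)) t :=
      ((hasDerivAt_id t).div_const τ).neg
    have h2 := (h1.exp).const_mul (-τ)
    refine h2.congr_deriv ?_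
    field_simp
  have hl : Tendsto (fun t => -τ * Real.exp (-(t / τ))) atTop (𝓝 0) := by
    have h1 : Tendsto (fun t : ℝ => t / τ) atTop atTop := tendsto_id.atTop_div_const hτ
    have h2 := (Real.tendsto_exp_neg_atTop_nhds_zero.comp h1).const_mul (-τ)
    simpa using h2
  have hc : ContinuousWithinAt (fun t => -τ * Real.exp (-(t / τ))) (Ici τ) τ :=
    (hd τ).continuousAt.continuousWithinAt
  constructor
  · exact integrableOn_Ioi_deriv_of_nonneg hc (fun t _ => hd t) (fun t _ => (Real.exp_pos _).le) hl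
  · rw [integral_Ioi_of_hasDerivAt_of_nonneg hc (fun t _ => hd t)
      (fun t _ => (Real.exp_pos _).le) hl, div_self hτ.ne']
    ring

theorem tail2 {τ : ℝ} (hτ : 0 < τ) :
    IntegrableOn (fun t => 2 * t * Real.exp (-(t / τ))) (Ioi τ) ∧
      ∫ t in Ioi τ, 2 * t * Real.exp (-(t / τ)) = 4 * τ ^ 2 * Real.exp (-1) := by
  have hd : ∀ t : ℝ, HasDerivAt (fun t => -2 * τ ^ 2 * ((t / τ + 1) * Real.exp (-(t / τ))))
      (2 * t * Real.exp (-(t / τ))) t := by
    intro t
    have h0 : HasDerivAt (fun t : ℝ => t / τ + 1) (1 / τ) t :=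
      ((hasDerivAt_id t).div_const τ).add_const 1
    have h1 : HasDerivAt (fun t : ℝ => -(t / τ)) (-(1 / τ)) t :=
      ((hasDerivAt_id t).div_const τ).neg
    have h2 := (h0.mul h1.exp).const_mul (-2 * τ ^ 2)
    refine h2.congr_deriv ?_
    field_simp
    ring
  have hl : Tendsto (fun t => -2 * τ ^ 2 * ((t / τ + 1) * Real.exp (-(t / τ)))) atTop (𝓝 0) := by
    have h1 : Tendsto (fun t : ℝ => t / τ) atTop atTop := tendsto_id.atTop_div_const hτ
    have h3 : Tendsto (fun s : ℝ => (s + 1) * Real.exp (-s)) atTop (𝓝 0) := by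
      have h4 := (Real.tendsto_pow_mul_exp_neg_atTop_nhds_zero 1).add
        Real.tendsto_exp_neg_atTop_nhds_zero
      rw [add_zero] at h4
      refine h4.congr fun s => ?_
      ring
    have h2 := (h3.comp h1).const_mul (-2 * τ ^ 2)
    simpa using h2
  have hc : ContinuousWithinAt (fun t => -2 * τ ^ 2 * ((t / τ + 1) * Real.exp (-(t / τ))))
      (Ici τ) τ := (hd τ).continuousAt.continuousWithinAt
  have hp : ∀ t ∈ Ioi τ, 0 ≤ 2 * t * Real.exp (-(t / τ)) := by
    intro t ht
    have : 0 < t := hτ.trans ht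
    positivity
  constructor
  · exact integrableOn_Ioi_deriv_of_nonneg hc (fun t _ => hd t) hp hl
  · rw [integral_Ioi_of_hasDerivAt_of_nonneg hc (fun t _ => hd t) hp hl, div_self hτ.ne']
    ring

theorem head1 {τ : ℝ} (hτ : 0 < τ) :
    ∫ t in (0 : ℝ)..τ, Real.exp (-(t / τ)) = τ * (1 - Real.exp (-1)) := by
  have hd : ∀ t : ℝ, HasDerivAt (fun t => -τ * Real.exp (-(t / τ))) (Real.exp (-(t / τ))) t := by
    intro t
    have h1 : HasDerivAt (fun t : ℝ => -(t / τ)) (-(1 / τ)) t :=
      ((hasDerivAt_id t).div_const τ).neg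
    have h2 := (h1.exp).const_mul (-τ)
    refine h2.congr_deriv ?_
    field_simp
  rw [intervalIntegral.integral_eq_sub_of_hasDerivAt (fun t _ => hd t)
    (Continuous.intervalIntegrable (by fun_prop) _ _), div_self hτ.ne']
  simp
  ring

theorem G_le_one (hw : Adm w) (hu : ∀ x, 0 ≤ u x) {t : ℝ} (ht : 0 ≤ t) : G w u t ≤ 1 := by
  rw [← G_zero hw hu]
  exact G_anti hw ht

theorem up1 (hw : Adm w) (hum : Measurable u) (hu : ∀ x, 0 ≤ u x) {τ : ℝ} (hτ : 0 < τ)
    (h2 : ∀ t, τ < t → G w u t ≤ Real.exp (-(t / τ))) :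
    ∫⁻ x, ENNReal.ofReal (u x * w x) ≤
      ENNReal.ofReal ((∫ x, w x) * (τ * (1 + Real.exp (-1)))) := by
  have hM := hw.pos
  rw [lay1 hw hum hu, ← Ioc_union_Ioi_eq_Ioi hτ.le,
    lintegral_union measurableSet_Ioi (Ioc_disjoint_Ioi le_rfl)]
  have a1 : ∫⁻ t in Ioc 0 τ, ENNReal.ofReal ((∫ x, w x) * G w u t) ≤
      ENNReal.ofReal ((∫ x, w x) * τ) := by
    calc ∫⁻ t in Ioc 0 τ, ENNReal.ofReal ((∫ x, w x) * G w u t)
        ≤ ∫⁻ t in Ioc 0 τ, ENNReal.ofReal (∫ x, w x) := by
          refine setLIntegral_mono measurable_const fun t ht => ?_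
          exact ENNReal.ofReal_le_ofReal (mul_le_of_le_one_right hM.le (G_le_one hw hu ht.1.le))
      _ = _ := by
          rw [setLIntegral_const, Real.volume_Ioc, sub_zero, ← ENNReal.ofReal_mul hM.le]
  have a2 : ∫⁻ t in Ioi τ, ENNReal.ofReal ((∫ x, w x) * G w u t) ≤
      ENNReal.ofReal ((∫ x, w x) * (τ * Real.exp (-1))) := by
    obtain ⟨b1, b2⟩ := tail1 hτ
    rw [← b2, ← integral_const_mul, ofReal_integral_eq_lintegral_ofReal (b1.const_mul _)
      (Eventually.of_forall fun t => by positivity)]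
    refine setLIntegral_mono (by fun_prop) fun t ht => ?_
    exact ENNReal.ofReal_le_ofReal (mul_le_mul_of_nonneg_left (h2 t ht) hM.le)
  refine (add_le_add a1 a2).trans (le_of_eq ?_)
  rw [← ENNReal.ofReal_add (by positivity) (by positivity)]
  congr 1
  ring

theorem up2 (hw : Adm w) (hum : Measurable u) (hu : ∀ x, 0 ≤ u x) {τ : ℝ} (hτ : 0 < τ)
    (h2 : ∀ t, τ < t → G w u t ≤ Real.exp (-(t / τ))) :
    ∫⁻ x, ENNReal.ofReal (u x ^ 2 * w x) ≤
      ENNReal.ofReal ((∫ x, w x) * (τ ^ 2 * (1 + 4 * Real.exp (-1)))) := by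
  have hM := hw.pos
  rw [lay2 hw hum hu, ← Ioc_union_Ioi_eq_Ioi hτ.le,
    lintegral_union measurableSet_Ioi (Ioc_disjoint_Ioi le_rfl)]
  have a1 : ∫⁻ t in Ioc 0 τ, ENNReal.ofReal ((∫ x, w x) * G w u t) * ENNReal.ofReal (2 * t) ≤
      ENNReal.ofReal ((∫ x, w x) * τ ^ 2) := by
    have e : ∫ t in Ioc 0 τ, (∫ x, w x) * (2 * t) = (∫ x, w x) * τ ^ 2 := by
      rw [← intervalIntegral.integral_of_le hτ.le, intervalIntegral.integral_const_mul,
        intervalIntegral.integral_const_mul, integral_id]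
      ring
    have hi : IntegrableOn (fun t => (∫ x, w x) * (2 * t)) (Ioc 0 τ) :=
      ((continuous_const.mul (continuous_const.mul continuous_id)).intervalIntegrable
        0 τ).1
    have hp : 0 ≤ᵐ[volume.restrict (Ioc 0 τ)] fun t => (∫ x, w x) * (2 * t) := by
      rw [EventuallyLE, ae_restrict_iff' measurableSet_Ioc]
      exact Eventually.of_forall fun t ht => mul_nonneg hM.le (by linarith [ht.1])
    rw [← e, ofReal_integral_eq_lintegral_ofReal hi hp]
    refine setLIntegral_mono (by fun_prop) fun t ht => ?_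
    rw [← ENNReal.ofReal_mul (mul_nonneg hM.le (G_nonneg hw t))]
    refine ENNReal.ofReal_le_ofReal (mul_le_mul_of_nonneg_right
      (mul_le_of_le_one_right hM.le (G_le_one hw hu ht.1.le)) (by linarith [ht.1]))
  have a2 : ∫⁻ t in Ioi τ, ENNReal.ofReal ((∫ x, w x) * G w u t) * ENNReal.ofReal (2 * t) ≤
      ENNReal.ofReal ((∫ x, w x) * (4 * τ ^ 2 * Real.exp (-1))) := by
    obtain ⟨b1, b2⟩ := tail2 hτ
    have hp : 0 ≤ᵐ[volume.restrict (Ioi τ)]
        fun t => (∫ x, w x) * (2 * t * Real.exp (-(t / τ))) := by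
      rw [EventuallyLE, ae_restrict_iff' measurableSet_Ioi]
      refine Eventually.of_forall fun t ht => ?_
      have : 0 < t := hτ.trans ht
      simp only [Pi.zero_apply]
      positivity
    rw [← b2, ← integral_const_mul, ofReal_integral_eq_lintegral_ofReal (b1.const_mul _) hp]
    refine setLIntegral_mono (by fun_prop) fun t ht => ?_
    have ht0 : 0 < t := hτ.trans ht
    rw [← ENNReal.ofReal_mul (mul_nonneg hM.le (G_nonneg hw t))]
    refine ENNReal.ofReal_le_ofReal ?_
    calc (∫ x, w x) * G w u t * (2 * t)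
        ≤ (∫ x, w x) * Real.exp (-(t / τ)) * (2 * t) :=
          mul_le_mul_of_nonneg_right (mul_le_mul_of_nonneg_left (h2 t ht) hM.le) (by positivity)
      _ = _ := by ring
  refine (add_le_add a1 a2).trans (le_of_eq ?_)
  rw [← ENNReal.ofReal_add (by positivity) (by positivity)]
  congr 1
  ring

theorem low1 (hw : Adm w) (hum : Measurable u) (hu : ∀ x, 0 ≤ u x) {τ : ℝ} (hτ : 0 < τ)
    (h1 : ∀ t, 0 < t → t < τ → Real.exp (-(t / τ)) ≤ G w u t) :
    ENNReal.ofReal ((∫ x, w x) * (τ * (1 - Real.exp (-1)))) ≤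
      ∫⁻ x, ENNReal.ofReal (u x * w x) := by
  have hM := hw.pos
  rw [lay1 hw hum hu]
  have a1 : ∫⁻ t in Ioo 0 τ, ENNReal.ofReal ((∫ x, w x) * G w u t) ≤
      ∫⁻ t in Ioi (0 : ℝ), ENNReal.ofReal ((∫ x, w x) * G w u t) :=
    lintegral_mono_set Ioo_subset_Ioi_self
  refine le_trans ?_ a1
  have hi : IntegrableOn (fun t => (∫ x, w x) * Real.exp (-(t / τ))) (Ioo 0 τ) :=
    (Continuous.intervalIntegrable (u := fun t => (∫ x, w x) * Real.exp (-(t / τ)))
      (by fun_prop) 0 τ).1.mono_set Ioo_subset_Ioc_self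
  rw [← head1 hτ, intervalIntegral.integral_of_le hτ.le, integral_Ioc_eq_integral_Ioo,
    ← integral_const_mul, ofReal_integral_eq_lintegral_ofReal hi
      (Eventually.of_forall fun t => by positivity)]
  refine setLIntegral_mono' measurableSet_Ioo fun t ht => ?_
  exact ENNReal.ofReal_le_ofReal (mul_le_mul_of_nonneg_left (h1 t ht.1 ht.2) hM.le)

/-- UM -/
theorem um_aux (hw : Adm w) (hlc : LCn w) (hum : Measurable u) (hu : ∀ x, 0 ≤ u x)
    (hc : ConcS w u) (hi : Integrable fun x => u x * w x) (hp : 0 < ∫ x, u x * w x) :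
    ∃ τ : ℝ, 0 < τ ∧ (∀ ε : ℝ, 0 < ε → ∫ x in {x | u x < ε * τ}, w x ≤ ε * ∫ x, w x) ∧
    EW w u ≤ 2 * τ ∧ τ / 2 ≤ EW w u ∧ Integrable (fun x => u x ^ 2 * w x) ∧
    EW w (fun x => u x ^ 2) ≤ 3 * τ ^ 2 := by
  obtain ⟨τ, hτ, h1, h2⟩ := exists_tau hw hlc hum hu hc hi hp
  have hM := hw.pos
  have he : Real.exp (-1) ≤ 1 / 2 := by
    rw [Real.exp_neg, ← one_div]
    exact one_div_le_one_div_of_le (by norm_num) (by linarith [Real.exp_one_gt_d9])
  have he0 := Real.exp_pos (-1)
  have c1 := up1 hw hum hu hτ h2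
  have c2 := up2 hw hum hu hτ h2
  have c3 := low1 hw hum hu hτ h1
  have i1 : ∫ x, u x * w x = (∫⁻ x, ENNReal.ofReal (u x * w x)).toReal :=
    integral_eq_lintegral_of_nonneg_ae
      (Eventually.of_forall fun x => mul_nonneg (hu x) (hw.nonneg x)) hi.aestronglyMeasurable
  have m2 : AEStronglyMeasurable (fun x => u x ^ 2 * w x) volume :=
    ((hum.pow_const 2).mul hw.meas).aestronglyMeasurable
  have p2 : 0 ≤ᵐ[volume] fun x => u x ^ 2 * w x :=
    Eventually.of_forall fun x => mul_nonneg (by positivity) (hw.nonneg x)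
  have i2 : ∫ x, u x ^ 2 * w x = (∫⁻ x, ENNReal.ofReal (u x ^ 2 * w x)).toReal :=
    integral_eq_lintegral_of_nonneg_ae p2 m2
  have j2 : Integrable (fun x => u x ^ 2 * w x) := by
    refine ⟨m2, ?_⟩
    rw [hasFiniteIntegral_iff_ofReal p2]
    exact lt_of_le_of_lt c2 ENNReal.ofReal_lt_top
  refine ⟨τ, hτ, ?_, ?_, ?_, j2, ?_⟩
  · intro ε hε
    rcases le_or_gt 1 ε with hε1 | hε1
    · calc ∫ x in {x | u x < ε * τ}, w x ≤ ∫ x, w x :=
            setIntegral_le_integral hw.one (Eventually.of_forall hw.nonneg)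
        _ ≤ _ := le_mul_of_one_le_left hM.le hε1
    · have hm : MeasurableSet {x | ε * τ ≤ u x} := measurableSet_le measurable_const hum
      have hcp : {x | u x < ε * τ} = {x | ε * τ ≤ u x}ᶜ := by
        ext x
        simp
      have hadd := integral_add_compl hm hw.one
      rw [← hcp] at hadd
      have hg := h1 (ε * τ) (by positivity) (by nlinarith)
      rw [mul_div_assoc, div_self hτ.ne', mul_one] at hg
      unfold G at hg
      rw [le_div_iff₀ hM] at hg
      have hε2 := Real.add_one_le_exp (-ε)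
      have : (1 - ε) * ∫ x, w x ≤ Real.exp (-ε) * ∫ x, w x :=
        mul_le_mul_of_nonneg_right (by linarith) hM.le
      linarith
  · unfold EW
    rw [div_le_iff₀ hM, i1]
    refine ENNReal.toReal_le_of_le_ofReal (by positivity) (c1.trans (ENNReal.ofReal_le_ofReal ?_))
    have : (∫ x, w x) * (τ * (1 + Real.exp (-1))) ≤ (∫ x, w x) * (τ * (1 + 1)) := by gcongr; linarith
    linarith
  · unfold EW
    rw [le_div_iff₀ hM, i1]
    have hf : ∫⁻ x, ENNReal.ofReal (u x * w x) ≠ ∞ := (lt_of_le_of_lt c1 ENNReal.ofReal_lt_top).ne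
    refine le_trans ?_ ((ENNReal.ofReal_le_iff_le_toReal hf).mp c3)
    have : (∫ x, w x) * (τ * (1 / 2)) ≤ (∫ x, w x) * (τ * (1 - Real.exp (-1))) := by
      gcongr; linarith
    linarith
  · unfold EW
    rw [div_le_iff₀ hM, i2]
    refine ENNReal.toReal_le_of_le_ofReal (by positivity) (c2.trans (ENNReal.ofReal_le_ofReal ?_))
    have : (∫ x, w x) * (τ ^ 2 * (1 + 4 * Real.exp (-1))) ≤ (∫ x, w x) * (τ ^ 2 * (1 + 4 * (1 / 2))) := by
      gcongr
    linarith

end um

/-- UM -/
theorem um : S_UM := fun _ _ _ hw hlc hum hu hc hi hp => um_aux hw hlc hum hu hc hi hp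

end Pool.Agent.Y625.PV
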